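import Mathlib
import Pool.Agent.Q16.Bd.Dyn

/-!
# A faithful minimal strongly proximal action of a free group which is not topologically free

The free group `F₄ = ⟨a, b, c, t⟩` acts on `X = ∂F₂ × ∂F₄` as follows: `a`, `b` act diagonally,
`c` acts on the second factor only, and `t` acts as left multiplication on the second factor,
except that it fixes `U × C` pointwise, where `U` is the set of words in `∂F₂` starting with a
negative letter and `C` the set of words in `∂F₄` not starting with `t` or `t⁻¹`; the complement of
`U` in `∂F₂` is identified with `∂F₂` when points leave or enter `Uᶜ × C`.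
-/

open MeasureTheory

namespace Pool.Agent.Results.MP_0c6837_al.NotTopologicallyFree

/-- Strong proximality of an action: for every Borel probability measure `μ` on `X` the weak-*
closure of the orbit of `μ` contains a Dirac measure. -/
def StronglyProximal (G X : Type*) [Group G] [MulAction G X] [TopologicalSpace X]
    [MeasurableSpace X] [BorelSpace X] : Prop :=
  ∀ μ : ProbabilityMeasure X, ∃ x : X, diracProba x ∈
    closure {ν : ProbabilityMeasure X | ∃ g : G,
      (ν : Measure X) = (μ : Measure X).map fun y => g • y}

/-- The negation of Q1: there are a finite rank `n` and a compact `F_n`-space `X` on which the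
action is faithful, minimal and strongly proximal, but the set of points with trivial stabilizer
is not dense. -/
theorem result : ∃ (n : ℕ) (X : Type) (_ : TopologicalSpace X) (_ : CompactSpace X)
    (_ : T2Space X) (_ : MeasurableSpace X) (_ : BorelSpace X)
    (_ : MulAction (FreeGroup (Fin n)) X),
    Nonempty X ∧
    (∀ g : FreeGroup (Fin n), IsHomeomorph fun x : X => g • x) ∧
    (∀ g : FreeGroup (Fin n), (∀ x : X, g • x = x) → g = 1) ∧
    (∀ x : X, Dense (MulAction.orbit (FreeGroup (Fin n)) x)) ∧
    StronglyProximal (FreeGroup (Fin n)) X ∧
    ¬ Dense {x : X | MulAction.stabilizer (FreeGroup (Fin n)) x = ⊥} := by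
  refine ⟨4, Q16.Bd.Sp, inferInstance, inferInstance, inferInstance, inferInstance, inferInstance,
    inferInstance, ⟨(Q16.Bd.con (0, true), Q16.Bd.con (0, true))⟩, ?_, Q16.Bd.faithful,
    Q16.Bd.dense_orbit, ?_, Q16.Bd.not_topologically_free⟩
  · intro g
    exact (Q16.Bd.Phi g).isHomeomorph
  · intro μ
    exact ⟨_, Q16.Bd.strongly_proximal μ⟩

end Pool.Agent.Results.MP_0c6837_al.NotTopologicallyFree
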